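import Mathlib
import Pool.Agent.Q10.Basic
import Pool.Agent.Q10.SkewLaurent
import Pool.Agent.Q10.SkewLaurentUnits

/-!
# A semilocal skew Laurent series ring whose coefficient ring has a non-nil Jacobson radical
-/

open PowerSeries (constantCoeff)

open scoped PowerSeries

noncomputable section

namespace Pool.Agent.Results.MP_669787_al.RadicalNotNil

/-- A ring is semilocal if its quotient by the Jacobson radical is semisimple Artinian. -/
def IsSemilocal (R : Type*) [Ring R] : Prop := IsSemisimpleRing (R ⧸ Ring.jacobson R)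

/-! ### The coefficient ring -/

/-- All two-sided sequences of power series over `ℚ` that have the same constant coefficient and
are constant (equal to that rational number) for all but finitely many indices. -/
def A : Subring (ℤ → ℚ⟦X⟧) where
  carrier := {a | ∃ c : ℚ, (∀ i, constantCoeff (a i) = c) ∧
    {i : ℤ | a i ≠ PowerSeries.C c}.Finite}
  mul_mem' := by
    rintro a b ⟨c, h1, h2⟩ ⟨d, k1, k2⟩
    refine ⟨c * d, fun i => by simp [h1, k1], (h2.union k2).subset ?_⟩
    intro i hi
    simp only [Set.mem_ofPred_eq, Set.mem_union] at hi ⊢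
    by_contra h
    push Not at h
    exact hi (by rw [Pi.mul_apply, h.1, h.2, map_mul])
  one_mem' := ⟨1, fun i => by simp, by simp⟩
  add_mem' := by
    rintro a b ⟨c, h1, h2⟩ ⟨d, k1, k2⟩
    refine ⟨c + d, fun i => by simp [h1, k1], (h2.union k2).subset ?_⟩
    intro i hi
    simp only [Set.mem_ofPred_eq, Set.mem_union] at hi ⊢
    by_contra h
    push Not at h
    exact hi (by rw [Pi.add_apply, h.1, h.2, map_add])
  zero_mem' := ⟨0, fun i => by simp, by simp⟩
  neg_mem' := by
    rintro a ⟨c, h1, h2⟩
    refine ⟨-c, fun i => by simp [h1], h2.subset ?_⟩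
    intro i hi
    simp only [Set.mem_ofPred_eq] at hi ⊢
    intro h
    exact hi (by rw [Pi.neg_apply, h, map_neg])

/-- The shift automorphism: `(shift a) i = a (i - 1)`. -/
def shift : A ≃+* A where
  toFun a := ⟨fun i => a.1 (i - 1), by
    obtain ⟨c, h1, h2⟩ := a.2
    refine ⟨c, fun i => h1 _, ?_⟩
    exact h2.preimage (f := fun i : ℤ => i - 1) (fun x _ y _ h => by simpa using h)⟩
  invFun a := ⟨fun i => a.1 (i + 1), by
    obtain ⟨c, h1, h2⟩ := a.2
    refine ⟨c, fun i => h1 _, ?_⟩
    exact h2.preimage (f := fun i : ℤ => i + 1) (fun x _ y _ h => by simpa using h)⟩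
  left_inv a := by ext1; funext i; simp
  right_inv a := by ext1; funext i; simp
  map_mul' a b := rfl
  map_add' a b := rfl

theorem shift_apply (a : A) (i : ℤ) : (shift a).1 i = a.1 (i - 1) := rfl

theorem shift_zpow_apply (n : ℤ) (a : A) (i : ℤ) : ((shift ^ n) a).1 i = a.1 (i - n) := by
  induction n using Int.induction_on generalizing a i with
  | zero => simp
  | succ n ih =>
    rw [zpow_add_one]
    change ((shift ^ (n : ℤ)) (shift a)).1 i = _
    rw [ih, shift_apply]
    have h : i - (n : ℤ) - 1 = i - ((n : ℤ) + 1) := by ring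
    rw [h]
  | pred n ih =>
    rw [zpow_sub_one]
    change ((shift ^ (-(n : ℤ))) (shift.symm a)).1 i = _
    rw [ih]
    change a.1 (i - -(n : ℤ) + 1) = _
    have h : i - -(n : ℤ) + 1 = i - (-(n : ℤ) - 1) := by ring
    rw [h]

/-- The residue map `A → ℚ`. -/
def res (a : A) : ℚ := constantCoeff (a.1 0)

theorem res_eq (a : A) (i : ℤ) : constantCoeff (a.1 i) = res a := by
  obtain ⟨c, h1, h2⟩ := a.2
  rw [res, h1, h1]

theorem finite_supp (a : A) : {i : ℤ | a.1 i ≠ PowerSeries.C (res a)}.Finite := by
  obtain ⟨c, h1, h2⟩ := a.2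
  rw [res, h1]; exact h2

theorem res_mul (a b : A) : res (a * b) = res a * res b := by simp [res]

theorem res_zpow (n : ℤ) (a : A) : res ((shift ^ n) a) = res a := by
  rw [res, shift_zpow_apply, res_eq]

theorem isUnit_of_res {a : A} (ha : res a ≠ 0) : IsUnit a := by
  have h1 : ∀ i, a.1 i * (a.1 i)⁻¹ = 1 := fun i =>
    PowerSeries.mul_inv_cancel _ (by rw [res_eq]; exact ha)
  let b : A := ⟨fun i => (a.1 i)⁻¹, (res a)⁻¹, fun i => by
    rw [PowerSeries.constantCoeff_inv, res_eq], (finite_supp a).subset (by
    intro i hi h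
    apply hi
    change (a.1 i)⁻¹ = _
    rw [h, PowerSeries.C_inv])⟩
  have hab : a * b = 1 := by ext1; funext i; exact h1 i
  exact ⟨⟨a, b, hab, by rw [mul_comm]; exact hab⟩, rfl⟩

/-- The sequence with the entry `b` (of constant coefficient zero) at place `i` and `0`
elsewhere. -/
def δ (i : ℤ) (b : ℚ⟦X⟧) (hb : constantCoeff b = 0) : A :=
  ⟨Pi.single i b, 0, fun j => by
    rw [Pi.single_apply]; split_ifs <;> simp [hb], (Set.finite_singleton i).subset (by
    intro j hj
    rw [Set.mem_ofPred_eq, Pi.single_apply] at hj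
    by_contra h
    rw [Set.mem_singleton_iff] at h
    exact hj (by rw [if_neg h, map_zero]))⟩

theorem δ_apply (i : ℤ) (b : ℚ⟦X⟧) (hb : constantCoeff b = 0) (j : ℤ) :
    (δ i b hb).1 j = if j = i then b else 0 := Pi.single_apply _ _ _

theorem res_δ (i : ℤ) (b : ℚ⟦X⟧) (hb : constantCoeff b = 0) : res (δ i b hb) = 0 := by
  rw [res, δ_apply]; split_ifs <;> simp [hb]

open Q10 SkewLaurent

/-- The monomials with coefficient `δ i b` lie in the Jacobson radical. -/
theorem mono_δ_mem (n i : ℤ) (b : ℚ⟦X⟧) (hb : constantCoeff b = 0) :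
    (mono n (δ i b hb) : SkewLaurent shift) ∈ Ring.jacobson (SkewLaurent shift) := by
  apply mem_jacobson_of_isUnit
  intro r
  set e : SkewLaurent shift := mono n (δ i b hb) with he
  set s : ℚ⟦X⟧ := (r.coeff (-n)).1 (i - n) * b with hs
  have hs0 : constantCoeff s = 0 := by rw [hs, map_mul, hb, mul_zero]
  have here : e * r * e = SkewLaurent.C (δ i s hs0) * e := by
    ext1
    funext m
    rw [he, mul_assoc, coeff_mono_mul, coeff_mul_mono, coeff_C_mul, coeff_mono]
    apply Subtype.ext
    funext j
    have e1 : (δ i b hb * (shift ^ n) (r.coeff (m - n - n) * (shift ^ (m - n - n)) (δ i b hb))).1 j =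
        (δ i b hb).1 j * ((r.coeff (m - n - n)).1 (j - n) * (δ i b hb).1 (j - n - (m - n - n))) := by
      rw [map_mul, Subring.coe_mul, Subring.coe_mul, Pi.mul_apply, Pi.mul_apply, shift_zpow_apply,
        shift_zpow_apply, shift_zpow_apply]
    rw [e1, δ_apply, δ_apply]
    by_cases hm : m = n
    · subst hm
      rw [if_pos rfl]
      by_cases hj : j = i
      · subst hj
        rw [if_pos rfl, if_pos (by ring)]
        have e2 : (δ j s hs0 * δ j b hb).1 j = s * b := by
          rw [Subring.coe_mul, Pi.mul_apply, δ_apply, δ_apply, if_pos rfl, if_pos rfl]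
        rw [e2, hs]
        have e3 : m - m - m = -m := by ring
        rw [e3]; ring
      · rw [if_neg hj, zero_mul]
        have e2 : (δ i s hs0 * δ i b hb).1 j = 0 := by
          rw [Subring.coe_mul, Pi.mul_apply, δ_apply, if_neg hj, zero_mul]
        rw [e2]
    · rw [if_neg hm, mul_zero]
      by_cases hj : j = i
      · rw [if_neg (by omega : ¬ (j - n - (m - n - n) = i)), mul_zero, mul_zero]; rfl
      · rw [if_neg hj, zero_mul]; rfl
  -- the inverse of `1 + δ i s`
  obtain ⟨a, ha⟩ : IsUnit (1 + δ i s hs0) := by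
    apply isUnit_of_res
    have : res (1 + δ i s hs0) = 1 := by
      have h1 : res (1 + δ i s hs0) = 1 + res (δ i s hs0) := by simp [res]
      rw [h1, res_δ, add_zero]
    rw [this]; exact one_ne_zero
  refine ⟨1 - r * SkewLaurent.C ((a⁻¹ : Aˣ) : A) * e, ?_⟩
  have h2 : (SkewLaurent.C ((a⁻¹ : Aˣ) : A) : SkewLaurent shift) *
      (1 + SkewLaurent.C (δ i s hs0)) = 1 := by
    have : (1 + SkewLaurent.C (δ i s hs0) : SkewLaurent shift) =
        SkewLaurent.C (1 + δ i s hs0) := by rw [map_add, map_one]
    rw [this, ← ha, ← map_mul, Units.inv_mul, map_one]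
  calc (1 - r * SkewLaurent.C ((a⁻¹ : Aˣ) : A) * e) * (1 + r * e)
      = 1 + r * e - r * SkewLaurent.C ((a⁻¹ : Aˣ) : A) * e -
        r * SkewLaurent.C ((a⁻¹ : Aˣ) : A) * (e * r * e) := by noncomm_ring
    _ = 1 + r * e - r * (SkewLaurent.C ((a⁻¹ : Aˣ) : A) * (1 + SkewLaurent.C (δ i s hs0))) * e := by
        rw [here]; noncomm_ring
    _ = 1 := by rw [h2]; noncomm_ring

/-- Every monomial with coefficient of residue zero lies in the Jacobson radical. -/
theorem mono_mem (n : ℤ) (a : A) (ha : res a = 0) :
    (mono n a : SkewLaurent shift) ∈ Ring.jacobson (SkewLaurent shift) := by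
  have hfin := finite_supp a
  have hb : ∀ i, constantCoeff (a.1 i) = 0 := fun i => by rw [res_eq, ha]
  have hsum : a = ∑ i ∈ hfin.toFinset, δ i (a.1 i) (hb i) := by
    apply Subtype.ext
    funext j
    have h1 : (∑ i ∈ hfin.toFinset, δ i (a.1 i) (hb i)).1 j =
        ∑ i ∈ hfin.toFinset, (δ i (a.1 i) (hb i)).1 j := by
      rw [AddSubmonoidClass.coe_finsetSum, Finset.sum_apply]
    rw [h1]
    have h2 : ∀ i ∈ hfin.toFinset, (δ i (a.1 i) (hb i)).1 j = if j = i then a.1 i else 0 :=
      fun i _ => δ_apply _ _ _ _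
    rw [Finset.sum_congr rfl h2, Finset.sum_ite_eq]
    split_ifs with h
    · rfl
    · rw [Set.Finite.mem_toFinset, Set.mem_ofPred_eq, not_not, ha, map_zero] at h
      exact h
  have hsum' : (mono n a : SkewLaurent shift) =
      ∑ i ∈ hfin.toFinset, mono n (δ i (a.1 i) (hb i)) := by
    ext1
    funext m
    rw [coeff_sum]
    simp only [coeff_mono]
    split_ifs with h
    · exact hsum
    · simp
  rw [hsum']
  exact Ideal.sum_mem _ fun i _ => mono_δ_mem n i _ _

/-- Every element of the skew Laurent series ring is a unit or lies in the Jacobson radical. -/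
theorem isUnit_or_mem (f : SkewLaurent shift) :
    IsUnit f ∨ f ∈ Ring.jacobson (SkewLaurent shift) := by
  obtain ⟨N, hN⟩ := f.bdd
  -- subtracting finitely many monomials
  have hsub : ∀ k : ℕ, (∀ i : ℤ, i < N + k → res (f.coeff i) = 0) →
      ∃ g ∈ Ring.jacobson (SkewLaurent shift), OrdGE (f - g) (N + k) ∧
        ∀ i : ℤ, N + k ≤ i → g.coeff i = 0 := by
    intro k
    induction k with
    | zero =>
      intro _
      refine ⟨0, Ideal.zero_mem _, ?_, fun i _ => rfl⟩
      rw [sub_zero]
      intro i hi
      exact hN i (by simpa using hi)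
    | succ k ih =>
      intro h
      obtain ⟨g, hg, hg1, hg2⟩ := ih (fun i hi => h i (by push_cast; omega))
      refine ⟨g + mono (N + k) (f.coeff (N + k)), Ideal.add_mem _ hg (mono_mem _ _
        (h _ (by push_cast; omega))), ?_, ?_⟩
      · intro i hi
        push_cast at hi
        rw [coeff_sub, coeff_add, coeff_mono]
        by_cases hik : i = N + k
        · rw [if_pos hik, hik, hg2 _ le_rfl, zero_add, sub_self]
        · rw [if_neg hik, add_zero, ← coeff_sub]
          exact hg1 i (by omega)
      · intro i hi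
        push_cast at hi
        rw [coeff_add, coeff_mono, hg2 i (by omega), if_neg (by omega), add_zero]
  by_cases hall : ∀ i, res (f.coeff i) = 0
  · right
    -- `f = g + h` with `g` in the radical and `h` of order at least `1`
    have hmem : ∀ f : SkewLaurent shift, (∀ i, res (f.coeff i) = 0) → IsUnit (1 + f) := by
      intro f hf
      obtain ⟨M, hM⟩ := f.bdd
      have haux : ∀ k : ℕ, ∃ g ∈ Ring.jacobson (SkewLaurent shift), OrdGE (f - g) (M + k) ∧
          ∀ i : ℤ, M + k ≤ i → g.coeff i = 0 := by
        intro k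
        induction k with
        | zero =>
          refine ⟨0, Ideal.zero_mem _, ?_, fun i _ => rfl⟩
          rw [sub_zero]
          intro i hi
          exact hM i (by simpa using hi)
        | succ k ih =>
          obtain ⟨g, hg, hg1, hg2⟩ := ih
          refine ⟨g + mono (M + k) (f.coeff (M + k)), Ideal.add_mem _ hg (mono_mem _ _ (hf _)),
            ?_, ?_⟩
          · intro i hi
            push_cast at hi
            rw [coeff_sub, coeff_add, coeff_mono]
            by_cases hik : i = M + k
            · rw [if_pos hik, hik, hg2 _ le_rfl, zero_add, sub_self]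
            · rw [if_neg hik, add_zero, ← coeff_sub]
              exact hg1 i (by omega)
          · intro i hi
            push_cast at hi
            rw [coeff_add, coeff_mono, hg2 i (by omega), if_neg (by omega), add_zero]
      obtain ⟨g, hg, hg1, -⟩ := haux (1 - M).toNat
      have h1 : OrdGE (f - g) 1 := hg1.mono_le (by omega)
      have h2 := isUnit_add_of_mem_jacobson (isUnit_one_add_of_ordGE h1) hg
      have h3 : 1 + (f - g) + g = 1 + f := by abel
      rwa [h3] at h2
    apply mem_jacobson_of_isUnit
    intro r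
    have h4 : IsUnit (1 + r * f) := by
      apply hmem
      intro i
      obtain ⟨a, ha⟩ := r.bdd
      rw [coeff_mul_eq_sum r f i a N ha hN]
      have hres : ∀ (s : Finset ℤ) (F : ℤ → A), res (∑ i ∈ s, F i) = ∑ i ∈ s, res (F i) := by
        intro s F
        have : ∀ a : A, res a = (constantCoeff.comp ((Pi.evalRingHom (fun _ : ℤ => ℚ⟦X⟧) 0).comp
          A.subtype)) a := fun a => rfl
        simp only [this, map_sum]
      rw [hres]
      apply Finset.sum_eq_zero
      intro j _
      rw [res_mul, res_zpow, hall, mul_zero]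
    obtain ⟨u, hu⟩ := h4
    exact ⟨(u⁻¹ : (SkewLaurent shift)ˣ), by rw [← hu, Units.inv_mul]⟩
  · left
    -- the first index with nonzero residue
    push Not at hall
    have hex : ∃ k : ℕ, res (f.coeff (N + k)) ≠ 0 := by
      obtain ⟨i, hi⟩ := hall
      refine ⟨(i - N).toNat, ?_⟩
      have : N ≤ i := by
        by_contra h
        exact hi (by rw [hN i (by omega)]; simp [res])
      have h2 : N + ((i - N).toNat : ℤ) = i := by omega
      rw [h2]; exact hi
    classical
    let k := Nat.find hex
    have hk : res (f.coeff (N + k)) ≠ 0 := Nat.find_spec hex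
    have hlt : ∀ i : ℤ, i < N + k → res (f.coeff i) = 0 := by
      intro i hi
      by_cases hiN : i < N
      · rw [hN i hiN]; simp [res]
      · have h1 : (i - N).toNat < k := by omega
        have h2 := Nat.find_min hex h1
        rw [not_not] at h2
        have h3 : N + ((i - N).toNat : ℤ) = i := by omega
        rwa [h3] at h2
    obtain ⟨g, hg, hg1, hg2⟩ := hsub k hlt
    have h1 : IsUnit (f - g) := by
      apply isUnit_of_lead hg1
      rw [coeff_sub, hg2 _ le_rfl, sub_zero]
      exact isUnit_of_res hk
    have h2 := isUnit_add_of_mem_jacobson h1 hg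
    rwa [sub_add_cancel] at h2

theorem semilocal : IsSemilocal (SkewLaurent shift) := by
  have h1 : Nontrivial (SkewLaurent shift) := ⟨⟨0, 1, fun h => by
    have := congrArg (fun f : SkewLaurent shift => res (f.coeff 0)) h
    simp [coeff_one, res] at this⟩⟩
  have h2 : Nontrivial (SkewLaurent shift ⧸ Ring.jacobson (SkewLaurent shift)) :=
    Ideal.Quotient.nontrivial_iff.mpr (ne_of_lt (Ring.jacobson_lt_top _))
  have h3 : IsSimpleModule (SkewLaurent shift ⧸ Ring.jacobson (SkewLaurent shift))
      (SkewLaurent shift ⧸ Ring.jacobson (SkewLaurent shift)) := by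
    rw [isSimpleModule_self_iff_isUnit]
    refine ⟨h2, fun x hx => ?_⟩
    obtain ⟨f, rfl⟩ := Ideal.Quotient.mk_surjective x
    rcases isUnit_or_mem f with h | h
    · exact h.map _
    · exact absurd (Ideal.Quotient.eq_zero_iff_mem.mpr h) hx
  change IsSemisimpleModule (SkewLaurent shift ⧸ Ring.jacobson (SkewLaurent shift))
      (SkewLaurent shift ⧸ Ring.jacobson (SkewLaurent shift))
  infer_instance

/-- There are a ring `A` and an automorphism `φ` of `A` such that the skew Laurent series ring
`A((x, φ))` is semilocal but the Jacobson radical of `A` contains an element that is not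
nilpotent. -/
theorem result : ∃ (A : Type) (_ : Ring A) (φ : A ≃+* A), IsSemilocal (Q10.SkewLaurent φ) ∧
    ∃ a ∈ Ring.jacobson A, ¬ IsNilpotent a := by
  refine ⟨A, inferInstance, shift, semilocal, δ 0 PowerSeries.X (by simp), ?_, ?_⟩
  · apply mem_jacobson_of_isUnit
    intro r
    obtain ⟨u, hu⟩ : IsUnit (1 + r * δ 0 PowerSeries.X (by simp)) := by
      apply isUnit_of_res
      have h1 : res (1 + r * δ 0 PowerSeries.X (by simp)) = 1 + res r * res (δ 0 PowerSeries.X
        (by simp)) := by simp [res]
      rw [h1, res_δ, mul_zero, add_zero]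
      exact one_ne_zero
    exact ⟨(u⁻¹ : Aˣ), by rw [← hu, Units.inv_mul]⟩
  · rintro ⟨n, hn⟩
    have h1 := congrArg (fun a : RadicalNotNil.A => a.1 0) hn
    have h2 : ((δ 0 PowerSeries.X (by simp)) ^ n).1 0 = (PowerSeries.X : ℚ⟦X⟧) ^ n := by
      rw [Subring.coe_pow, Pi.pow_apply, δ_apply, if_pos rfl]
    simp only [h2] at h1
    exact pow_ne_zero n PowerSeries.X_ne_zero h1

end Pool.Agent.Results.MP_669787_al.RadicalNotNil
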